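import Pool.Agent.Helper20.NP.Stmts
import Pool.Agent.Helper11.NP.QS

set_option autoImplicit false

namespace Pool.Agent.Helper20.NP

open Pool.Agent.Helper21.DN

universe u

section

variable {G : Type u} [Group G]

/-- the elements with `x ^ p = 1` of a `p`-central group -/
def indOm (p : ℕ) (h : ∀ x : G, x ^ p = 1 → x ∈ Subgroup.center G) : Subgroup G where
  carrier := {x | x ^ p = 1}
  one_mem' := one_pow p
  mul_mem' := by
    intro a b ha hb
    have ha' : a ^ p = 1 := ha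
    have hb' : b ^ p = 1 := hb
    have hc : Commute a b := (Subgroup.mem_center_iff.1 (h a ha') b).symm
    show (a * b) ^ p = 1
    rw [hc.mul_pow, ha', hb', one_mul]
  inv_mem' := by
    intro a ha
    have ha' : a ^ p = 1 := ha
    show a⁻¹ ^ p = 1
    rw [inv_pow, ha', inv_one]

theorem ind_mem {p : ℕ} {h : ∀ x : G, x ^ p = 1 → x ∈ Subgroup.center G} {x : G} :
    x ∈ indOm p h ↔ x ^ p = 1 := Iff.rfl

theorem ind_le {p : ℕ} {h : ∀ x : G, x ^ p = 1 → x ∈ Subgroup.center G} :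
    indOm p h ≤ Subgroup.center G := fun x hx => h x hx

theorem ind_normal {p : ℕ} {h : ∀ x : G, x ^ p = 1 → x ∈ Subgroup.center G} :
    (indOm p h).Normal := by
  constructor
  intro n hn g
  have h1 := Subgroup.mem_center_iff.1 (h n hn) g
  rw [h1, mul_inv_cancel_right]
  exact hn

end

section

variable {G : Type u} [Group G] [Fintype G]

theorem ind_phi (f : G → ℕ) (a : ℕ) : (Fintype.card G : ℝ) * phi f (a : ℝ) =
    ((a + S1 (fun g => min (f g) a) : ℕ) : ℝ) := by
  classical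
  have hc : (Fintype.card G : ℝ) ≠ 0 := by
    have : 0 < Fintype.card G := Fintype.card_pos
    positivity
  unfold phi S1
  rw [mul_div_cancel₀ _ hc]
  push_cast
  rfl

theorem ind_cond (f : G → ℕ) : (Fintype.card G : ℝ) * cond f = ((S1 f + x0 f : ℕ) : ℝ) := by
  have hc : (Fintype.card G : ℝ) ≠ 0 := by
    have : 0 < Fintype.card G := Fintype.card_pos
    positivity
  unfold Pool.Agent.Helper21.DN.cond
  rw [mul_div_cancel₀ _ hc]
  push_cast
  rfl

theorem ind_S1_mono (f F : G → ℕ) (h : ∀ g, f g ≤ F g) : S1 f ≤ S1 F := by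
  classical
  unfold S1
  exact Finset.sum_le_sum (fun g _ => h g)

theorem ind_SO_congr (f F : G → ℕ) (N : Subgroup G) (h : ∀ g, g ∉ N → f g = F g) :
    SO f N = SO F N := by
  classical
  unfold SO
  refine Finset.sum_congr rfl (fun g hg => ?_)
  rw [Finset.mem_filter] at hg
  exact h g hg.2

theorem ind_SI_congr (f F : G → ℕ) (N : Subgroup G) (h : ∀ g, g ∈ N → f g = F g) :
    SI f N = SI F N := by
  classical
  unfold SI
  refine Finset.sum_congr rfl (fun g hg => ?_)
  rw [Finset.mem_filter] at hg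
  exact h g hg.2.1

theorem ind_SI_eq (f : G → ℕ) (N : Subgroup G) (t : Finset G) (ht : ∀ g, g ∈ t ↔ g ∈ N ∧ g ≠ 1) :
    SI f N = ∑ g ∈ t, f g := by
  classical
  unfold SI
  refine Finset.sum_congr ?_ (fun _ _ => rfl)
  ext g
  rw [Finset.mem_filter, ht]
  exact ⟨fun h => h.2, fun h => ⟨Finset.mem_univ _, h⟩⟩

theorem ind_S1_sub (H : Subgroup G) [Fintype H] (F : G → ℕ) :
    S1 (fun h : H => F (h : G)) = SI F H := by
  classical
  obtain ⟨t1, ht1⟩ : ∃ t : Finset H, ∀ g, g ∈ t ↔ g ≠ 1 := ⟨Finset.univ.filter (fun g => g ≠ 1), by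
    intro g; simp⟩
  obtain ⟨t2, ht2⟩ : ∃ t : Finset G, ∀ g, g ∈ t ↔ g ∈ H ∧ g ≠ 1 :=
    ⟨Finset.univ.filter (fun g => g ∈ H ∧ g ≠ 1), by intro g; simp⟩
  rw [qs_S1_eq _ t1 ht1, ind_SI_eq F H t2 ht2]
  refine Finset.sum_bij (fun h _ => (h : G)) ?_ ?_ ?_ ?_
  · intro h hh
    rw [ht1] at hh
    rw [ht2]
    exact ⟨h.2, fun h1 => hh (Subtype.ext h1)⟩
  · intro a _ b _ hab
    exact Subtype.ext hab
  · intro g hg
    rw [ht2] at hg
    refine ⟨⟨g, hg.1⟩, ?_, rfl⟩
    rw [ht1]
    exact fun h1 => hg.2 (congrArg Subtype.val h1)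
  · intro a _
    rfl

theorem ind_SI_sub (H J : Subgroup G) [Fintype H] (hJ : J ≤ H) (F : G → ℕ) :
    SI (fun h : H => F (h : G)) (J.subgroupOf H) = SI F J := by
  classical
  obtain ⟨t1, ht1⟩ : ∃ t : Finset H, ∀ g, g ∈ t ↔ g ∈ J.subgroupOf H ∧ g ≠ 1 :=
    ⟨Finset.univ.filter (fun g => g ∈ J.subgroupOf H ∧ g ≠ 1), by intro g; simp⟩
  obtain ⟨t2, ht2⟩ : ∃ t : Finset G, ∀ g, g ∈ t ↔ g ∈ J ∧ g ≠ 1 :=
    ⟨Finset.univ.filter (fun g => g ∈ J ∧ g ≠ 1), by intro g; simp⟩
  rw [ind_SI_eq _ _ t1 ht1, ind_SI_eq F J t2 ht2]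
  refine Finset.sum_bij (fun h _ => (h : G)) ?_ ?_ ?_ ?_
  · intro h hh
    rw [ht1] at hh
    rw [ht2]
    exact ⟨Subgroup.mem_subgroupOf.1 hh.1, fun h1 => hh.2 (Subtype.ext h1)⟩
  · intro a _ b _ hab
    exact Subtype.ext hab
  · intro g hg
    rw [ht2] at hg
    refine ⟨⟨g, hJ hg.1⟩, ?_, rfl⟩
    rw [ht1]
    exact ⟨Subgroup.mem_subgroupOf.2 hg.1, fun h1 => hg.2 (congrArg Subtype.val h1)⟩
  · intro a _
    rfl

/-- fibre sums outside a subgroup of the quotient -/
theorem ind_fib (f : G → ℕ) (N : Subgroup G) [N.Normal] [Fintype (G ⧸ N)] (fQ : G ⧸ N → ℕ)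
    (hQ : ∀ g : G, g ∉ N → Nat.card N * fQ (g : G ⧸ N) = cs f N g) (M : Subgroup (G ⧸ N)) :
    Nat.card N * SO fQ M = SO f (M.comap (QuotientGroup.mk' N)) := by
  classical
  unfold SO
  rw [Finset.mul_sum]
  rw [← Finset.sum_fiberwise_of_maps_to
    (s := Finset.univ.filter (fun g : G => g ∉ M.comap (QuotientGroup.mk' N)))
    (t := Finset.univ.filter (fun q : G ⧸ N => q ∉ M)) (g := fun g : G => (g : G ⧸ N))]
  · refine Finset.sum_congr rfl (fun q hq => ?_)
    rw [Finset.mem_filter] at hq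
    obtain ⟨g0, rfl⟩ := QuotientGroup.mk_surjective q
    have hg0 : g0 ∉ N := by
      intro h
      apply hq.2
      rw [(QuotientGroup.eq_one_iff g0).2 h]
      exact M.one_mem
    rw [hQ g0 hg0]
    unfold cs
    refine Finset.sum_bij' (fun j _ => g0 * j) (fun g _ => g0⁻¹ * g) ?_ ?_ ?_ ?_ ?_
    · intro j hj
      rw [Finset.mem_filter] at hj
      rw [Finset.mem_filter, Finset.mem_filter]
      have e1 : ((g0 * j : G) : G ⧸ N) = (g0 : G ⧸ N) := QuotientGroup.mk_mul_of_mem g0 hj.2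
      refine ⟨⟨Finset.mem_univ _, ?_⟩, e1⟩
      intro h
      apply hq.2
      rw [Subgroup.mem_comap] at h
      change ((g0 * j : G) : G ⧸ N) ∈ M at h
      rwa [e1] at h
    · intro g hg
      rw [Finset.mem_filter] at hg
      rw [Finset.mem_filter]
      refine ⟨Finset.mem_univ _, ?_⟩
      exact QuotientGroup.eq.1 hg.2.symm
    · intro j _
      group
    · intro g _
      group
    · intro j _
      rfl
  · intro g hg
    rw [Finset.mem_filter] at hg ⊢
    refine ⟨Finset.mem_univ _, ?_⟩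
    intro h
    exact hg.2 (Subgroup.mem_comap.2 h)

/-- the Herbrand function of a subgroup, times its order -/
noncomputable def indPsi (f : G → ℕ) (J : Subgroup G) (a : ℕ) : ℕ := a + SI (fun j => min a (f j)) J

theorem ind_psi_lt (f : G → ℕ) (J : Subgroup G) (a b : ℕ) (h : a < b) :
    indPsi f J a < indPsi f J b := by
  unfold indPsi
  have : SI (fun j => min a (f j)) J ≤ SI (fun j => min b (f j)) J :=
    qs_SI_mono _ _ J (fun j _ _ => min_le_min_right _ h.le)
  omega

theorem ind_coset (hCOS : ST_COS.{u}) (f : G → ℕ) (hf : RF f) (J : Subgroup G) (g : G)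
    (hg : g ∉ J) : ∃ g0 : G, g0 ∉ J ∧ g⁻¹ * g0 ∈ J ∧ f g ≤ f g0 ∧ cs f J g = indPsi f J (f g0) := by
  obtain ⟨g0, h0, h1, h2, h3⟩ := hCOS G f hf J g hg
  refine ⟨g0, h0, h1, ?_, ?_⟩
  · have h4 := h2 (g0⁻¹ * g) (by
      have := J.inv_mem h1
      rwa [mul_inv_rev, inv_inv] at this)
    rwa [mul_inv_cancel_left] at h4
  · rw [qs_cs_eq f J g g0 h1]
    exact qs_cs_split f J g0 (fun j => min (f g0) (f j)) h3

end

theorem ind_main (p : ℕ) [hp : Fact p.Prime] (hp2 : p ≠ 2) (hRGF : ST_RGF.{u}) (hRS : ST_RS.{u})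
    (hRQ : ST_RQ.{u}) (hPJ : ST_PJ.{u}) (hPCQ : ST_PCQ.{u}) (hCENT : ST_CENT.{u})
    (hCOS : ST_COS.{u}) (n : ℕ) : ∀ (G : Type u) [Group G] [Fintype G] (f : G → ℕ),
    RG p G f → (∀ x : G, x ^ p = 1 → x ∈ Subgroup.center G) → Fintype.card G = n →
    ∀ y : G, y ^ p ≠ 1 → ((p : ℝ) - 1) * phi f (f y) ≤ cond f := by
  classical
  induction n using Nat.strong_induction_on with
  | _ n ih =>
  intro G _ _ f hRG hc hn y hy
  have hpG : IsPGroup p G := by
    obtain ⟨_, _, _, _, _, _, _, _, _, _, _, _, _, _, _, _, _, h, _⟩ := hRG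
    exact h
  have hf : RF f := (hRGF p G f hRG).rf
  have hpp := hp.out
  -- the subgroup J and the quotient
  set J : Subgroup G := indOm p hc with hJ
  have hJn : J.Normal := ind_normal
  have hyJ : y ∉ J := hy
  let hFQ : Fintype (G ⧸ J) := Fintype.ofFinite _
  obtain ⟨fQ, hQG, hQ⟩ := hRQ p G f hRG J
  have hfQ : RF fQ := (hRGF p (G ⧸ J) fQ hQG).rf
  have hcomm : ∀ x y : G, (x ^ p) ^ p = 1 → x * y * x⁻¹ * y⁻¹ ∈ J :=
    fun x y hx => hPCQ p hp2 G hpG hc x y hx
  have hmk : ∀ x : G, ((x : G ⧸ J) ^ p = 1 ↔ (x ^ p) ^ p = 1) := by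
    intro x
    rw [← QuotientGroup.mk_pow, QuotientGroup.eq_one_iff]
    exact Iff.rfl
  have hcQ : ∀ q : G ⧸ J, q ^ p = 1 → q ∈ Subgroup.center (G ⧸ J) := by
    intro q hq
    obtain ⟨x, rfl⟩ := QuotientGroup.mk_surjective q
    rw [Subgroup.mem_center_iff]
    intro r
    obtain ⟨y, rfl⟩ := QuotientGroup.mk_surjective r
    have h1 := hcomm x y ((hmk x).1 hq)
    have h2 : ((x * y * x⁻¹ * y⁻¹ : G) : G ⧸ J) = 1 := (QuotientGroup.eq_one_iff _).2 h1
    rw [QuotientGroup.mk_mul, QuotientGroup.mk_mul, QuotientGroup.mk_mul, QuotientGroup.mk_inv,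
      QuotientGroup.mk_inv, mul_inv_eq_one, mul_inv_eq_iff_eq_mul] at h2
    exact h2.symm
  set HQ : Subgroup (G ⧸ J) := indOm p hcQ with hHQ
  set H : Subgroup G := HQ.comap (QuotientGroup.mk' J) with hH
  have hmemH : ∀ x : G, x ∈ H ↔ (x ^ p) ^ p = 1 := fun x => hmk x
  have hJH : J ≤ H := by
    intro x hx
    rw [hmemH]
    have : x ^ p = 1 := hx
    rw [this, one_pow]
  -- the central element z
  have hntQ : Nontrivial (G ⧸ J) := by
    refine ⟨(y : G ⧸ J), 1, ?_⟩
    intro h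
    exact hyJ ((QuotientGroup.eq_one_iff y).1 h)
  obtain ⟨zb, hzb1, hzb2, hzb3⟩ := hCENT p (G ⧸ J) fQ (hpG.to_quotient J) hntQ hfQ
  obtain ⟨z, rfl⟩ := QuotientGroup.mk_surjective zb
  have hzJ : z ∉ J := by
    intro h
    rw [(QuotientGroup.eq_one_iff z).2 h, orderOf_one] at hzb2
    exact hpp.one_lt.ne hzb2
  obtain ⟨z0, hz0J, hzz0, hfz, hcz⟩ := ind_coset hCOS f hf J z hzJ
  -- the element with the largest value outside J
  obtain ⟨g1, hg1m, hg1⟩ := Finset.exists_max_image (Finset.univ.filter (fun g : G => g ∉ J)) f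
    ⟨y, Finset.mem_filter.2 ⟨Finset.mem_univ _, hyJ⟩⟩
  have hg1J : g1 ∉ J := (Finset.mem_filter.1 hg1m).2
  have hmax : ∀ g : G, g ∉ J → f g ≤ f g1 :=
    fun g hg => hg1 g (Finset.mem_filter.2 ⟨Finset.mem_univ _, hg⟩)
  obtain ⟨g1', hg1'J, _, hfg1', hcg1⟩ := ind_coset hCOS f hf J g1 hg1J
  have e1 : f g1' = f g1 := le_antisymm (hmax g1' hg1'J) hfg1'
  set x1 := f g1 with hx1
  have hzz : f z0 = x1 := by
    apply le_antisymm (hmax z0 hz0J)
    by_contra hlt
    push Not at hlt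
    have h1 := ind_psi_lt f J (f z0) x1 hlt
    have h2 : Nat.card J * fQ (g1 : G ⧸ J) ≤ Nat.card J * fQ (z : G ⧸ J) := by
      apply Nat.mul_le_mul_left
      rw [hzb3]
      exact qs_le_x0 fQ _ (fun h => hg1J ((QuotientGroup.eq_one_iff g1).1 h))
    rw [hQ g1 hg1J, hQ z hzJ, hcg1, hcz, e1] at h2
    omega
  set a1 := indPsi f J x1 with ha1
  have hJx0 : Nat.card J * x0 fQ = a1 := by
    rw [← hzb3, hQ z hzJ, hcz, hzz]
  have hz0H : z0 ∈ H := by
    rw [hmemH, ← hmk]
    have h1 : (z0 : G ⧸ J) = (z : G ⧸ J) := (QuotientGroup.eq.2 hzz0).symm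
    rw [h1, ← hzb2]
    exact pow_orderOf_eq_one _
  -- the subgroup H
  let hFH : Fintype H := Fintype.ofFinite _
  have hRH := hRS p G f hRG H
  set J' : Subgroup H := J.subgroupOf H with hJ'
  have hPJ1 := hPJ p hp2 H (fun h : H => f (h : G)) hRH J'
    (by
      intro x hx
      rw [Subgroup.mem_center_iff]
      intro w
      apply Subtype.ext
      exact Subgroup.mem_center_iff.1 (hc (x : G) (Subgroup.mem_subgroupOf.1 hx)) (w : G))
    (by
      intro x
      rw [hJ', Subgroup.mem_subgroupOf]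
      constructor
      · intro h
        have h2 := congrArg Subtype.val h
        have h3 : (x : G) ^ p = 1 := by simpa using h2
        exact h3
      · intro h
        apply Subtype.ext
        have : ((x : G)) ^ p = 1 := h
        simpa using this)
    (by
      intro x
      rw [hJ', Subgroup.mem_subgroupOf]
      have h1 := (hmemH (x : G)).1 x.2
      show ((x ^ p : H) : G) ^ p = 1
      simpa using h1)
    (by
      intro x w
      rw [hJ', Subgroup.mem_subgroupOf]
      exact hcomm (x : G) (w : G) ((hmemH (x : G)).1 x.2))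
    ⟨z0, hz0H⟩ (by
      rw [hJ', Subgroup.mem_subgroupOf]
      exact hz0J)
  have hcardH : (0 : ℝ) < (Fintype.card H : ℝ) := by
    have : 0 < Fintype.card H := Fintype.card_pos
    positivity
  have hPJ2 : p * (x1 + S1 (fun h : H => min (f (h : G)) x1)) ≤
      S1 (fun h : H => f (h : G)) + x0 (fun h : H => f (h : G)) := by
    have h1 := mul_le_mul_of_nonneg_left hPJ1 hcardH.le
    rw [ind_cond] at h1
    have h2 : (Fintype.card H : ℝ) * ((p : ℝ) * phi (fun h : H => f (h : G)) (((fun h : H => f (h : G)) ⟨z0, hz0H⟩ : ℕ) : ℝ)) =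
        (p : ℝ) * ((Fintype.card H : ℝ) * phi (fun h : H => f (h : G)) (x1 : ℝ)) := by
      have : ((fun h : H => f (h : G)) ⟨z0, hz0H⟩ : ℕ) = x1 := hzz
      rw [this]; ring
    rw [h2, ind_phi] at h1
    exact_mod_cast h1
  -- sums
  set B := SO (fun h : H => f (h : G)) J' with hB
  have s1 : SI f H = SI f J + B := by
    rw [← ind_S1_sub H f, ← qs_split (fun h : H => f (h : G)) J', ind_SI_sub H J hJH f]
  have hminJ' : SO (fun h : H => min (f (h : G)) x1) J' = B := by
    apply ind_SO_congr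
    intro g hg
    apply min_eq_left
    apply hmax
    intro h
    exact hg (Subgroup.mem_subgroupOf.2 h)
  have hminSI : SI (fun g => min (f g) x1) J = SI (fun g => min x1 (f g)) J :=
    ind_SI_congr _ _ J (fun g _ => min_comm _ _)
  have s2 : x1 + S1 (fun h : H => min (f (h : G)) x1) = a1 + B := by
    rw [← qs_split (fun h : H => min (f (h : G)) x1) J',
      ind_SI_sub H J hJH (fun g => min (f g) x1), hminJ', hminSI, ha1]
    unfold indPsi
    ring
  have s3 : x0 (fun h : H => f (h : G)) ≤ x0 f := by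
    apply qs_x0_le
    intro g hg
    apply qs_le_x0
    intro h
    exact hg (Subtype.ext h)
  have hPJ3 : p * (a1 + B) ≤ SI f H + x0 f := by
    rw [← s2]
    refine hPJ2.trans ?_
    rw [ind_S1_sub H f]
    exact Nat.add_le_add_left s3 _
  have s4 : SO f J = B + SO f H := by
    have h1 := qs_split f J
    have h2 := qs_split f H
    omega
  have s5 : x1 + S1 (fun g => min (f g) x1) = a1 + B + SO f H := by
    rw [← qs_split (fun g => min (f g) x1) J, hminSI,
      ind_SO_congr (fun g => min (f g) x1) f J (fun g hg => min_eq_left (hmax g hg)), s4, ha1]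
    unfold indPsi
    ring
  -- the induction step
  have key : (p - 1) * SO f H ≤ a1 + B + SO f H := by
    by_cases hw : ∃ w : G ⧸ J, w ∉ HQ
    · obtain ⟨w0, hw0⟩ := hw
      obtain ⟨w, hwm, hwmax⟩ := Finset.exists_max_image
        (Finset.univ.filter (fun q : G ⧸ J => q ∉ HQ)) fQ
        ⟨w0, Finset.mem_filter.2 ⟨Finset.mem_univ _, hw0⟩⟩
      have hwH : w ∉ HQ := (Finset.mem_filter.1 hwm).2
      have hcardlt : Fintype.card (G ⧸ J) < n := by
        rw [← hn]
        have h1 : Nat.card G = Nat.card (G ⧸ J) * Nat.card J := Subgroup.card_eq_card_quotient_mul_card_subgroup J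
        rw [Nat.card_eq_fintype_card, Nat.card_eq_fintype_card] at h1
        rw [h1]
        have h2 : 1 < Nat.card J := by
          rw [Subgroup.one_lt_card_iff_ne_bot]
          intro hbot
          -- an element of order p
          have hnt : Nontrivial G := ⟨y, 1, fun h => hy (by rw [h, one_pow])⟩
          obtain ⟨c, _, hc2, _⟩ := hCENT p G f hpG hnt hf
          have hcJ : c ∈ J := by
            show c ^ p = 1
            rw [← hc2]; exact pow_orderOf_eq_one c
          rw [hbot, Subgroup.mem_bot] at hcJ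
          rw [hcJ, orderOf_one] at hc2
          exact hpp.one_lt.ne hc2
        have h3 : 0 < Fintype.card (G ⧸ J) := Fintype.card_pos
        nlinarith
      have h1 := ih _ hcardlt (G ⧸ J) fQ hQG hcQ rfl w hwH
      have hcardQ : (0 : ℝ) < (Fintype.card (G ⧸ J) : ℝ) := by
        have : 0 < Fintype.card (G ⧸ J) := Fintype.card_pos
        positivity
      have h2 := mul_le_mul_of_nonneg_left h1 hcardQ.le
      rw [ind_cond] at h2
      have h3 : (Fintype.card (G ⧸ J) : ℝ) * (((p : ℝ) - 1) * phi fQ (fQ w : ℝ)) =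
          ((p : ℝ) - 1) * ((Fintype.card (G ⧸ J) : ℝ) * phi fQ (fQ w : ℝ)) := by ring
      rw [h3, ind_phi] at h2
      have hp1 : ((p : ℝ) - 1) = ((p - 1 : ℕ) : ℝ) := by
        rw [Nat.cast_sub hpp.one_le]; simp
      rw [hp1] at h2
      have h4 : (p - 1) * (fQ w + S1 (fun g => min (fQ g) (fQ w))) ≤ S1 fQ + x0 fQ := by
        exact_mod_cast h2
      have h5 : SO fQ HQ ≤ fQ w + S1 (fun g => min (fQ g) (fQ w)) := by
        rw [← qs_split (fun g => min (fQ g) (fQ w)) HQ,
          ind_SO_congr (fun g => min (fQ g) (fQ w)) fQ HQ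
            (fun g hg => min_eq_left (hwmax g (Finset.mem_filter.2 ⟨Finset.mem_univ _, hg⟩)))]
        omega
      have h6 : (p - 1) * SO fQ HQ ≤ S1 fQ + x0 fQ := (Nat.mul_le_mul_left _ h5).trans h4
      have h7 := Nat.mul_le_mul_left (Nat.card J) h6
      have h8 : Nat.card J * ((p - 1) * SO fQ HQ) = (p - 1) * SO f H := by
        rw [← ind_fib f J fQ hQ HQ]; ring
      have h9 : Nat.card J * (S1 fQ + x0 fQ) = SO f J + a1 := by
        rw [mul_add, qs_fib f J fQ hQ, hJx0]
      rw [h8, h9, s4] at h7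
      omega
    · push Not at hw
      have h0 : SO f H = 0 := by
        unfold SO
        apply Finset.sum_eq_zero
        intro g hg
        exact absurd (hw (g : G ⧸ J)) (Finset.mem_filter.1 hg).2
      rw [h0]
      omega
  -- conclusion
  have hcardG : (0 : ℝ) < (Fintype.card G : ℝ) := by
    have : 0 < Fintype.card G := Fintype.card_pos
    positivity
  have hmono : f y + S1 (fun g => min (f g) (f y)) ≤ x1 + S1 (fun g => min (f g) x1) :=
    Nat.add_le_add (hmax y hyJ) (ind_S1_mono _ _ (fun g => min_le_min_left _ (hmax y hyJ)))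
  have hfin : (p - 1) * (f y + S1 (fun g => min (f g) (f y))) ≤ S1 f + x0 f := by
    refine (Nat.mul_le_mul_left _ hmono).trans ?_
    rw [s5, ← qs_split f H]
    obtain ⟨m, hm⟩ : ∃ m, p = m + 1 := ⟨p - 1, by have := hpp.one_le; omega⟩
    rw [hm] at hPJ3 key ⊢
    rw [Nat.add_sub_cancel] at key ⊢
    nlinarith
  have hfinR : ((p : ℝ) - 1) * ((Fintype.card G : ℝ) * phi f (f y : ℝ)) ≤ (Fintype.card G : ℝ) * cond f := by
    rw [ind_phi, ind_cond]
    have hp1 : ((p : ℝ) - 1) = ((p - 1 : ℕ) : ℝ) := by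
      rw [Nat.cast_sub hpp.one_le]; simp
    rw [hp1]
    exact_mod_cast hfin
  have h10 : (Fintype.card G : ℝ) * (((p : ℝ) - 1) * phi f (f y : ℝ)) ≤ (Fintype.card G : ℝ) * cond f := by
    refine le_trans (le_of_eq ?_) hfinR
    ring
  exact le_of_mul_le_mul_left h10 hcardG

theorem st_IND (hRGF : ST_RGF.{u}) (hRS : ST_RS.{u}) (hRQ : ST_RQ.{u}) (hPJ : ST_PJ.{u})
    (hPCQ : ST_PCQ.{u}) (hCENT : ST_CENT.{u}) (hCOS : ST_COS.{u}) : ST_IND.{u} := by
  intro p _ hp2 G _ _ f hRG hc y hy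
  exact ind_main p hp2 hRGF hRS hRQ hPJ hPCQ hCENT hCOS (Fintype.card G) G f hRG hc rfl y hy

end Pool.Agent.Helper20.NP
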